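import Mathlib

/-! # Paucity in Vinogradov's system by successive lattices: definitions

Notation: a polynomial of degree `< d` is its coefficient vector `Q : Fin d → ℤ`. -/

set_option autoImplicit false

namespace Pool.Agent.N541.LV

open Finset

/-- The value at `t` of the polynomial with coefficient vector `Q`. -/
def ev {d : ℕ} (Q : Fin d → ℤ) (t : ℤ) : ℤ := ∑ l, Q l * t ^ (l : ℕ)

/-- The box `|Q_l| ≤ R_l`. -/
noncomputable def box {d : ℕ} (R : Fin d → ℕ) : Finset (Fin d → ℤ) :=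
  Fintype.piFinset fun l => Finset.Icc (-(R l : ℤ)) (R l : ℤ)

open scoped Classical in
/-- The points of the subgroup `Λ` in the box. -/
noncomputable def pts {d : ℕ} (Λ : AddSubgroup (Fin d → ℤ)) (R : Fin d → ℕ) : Finset (Fin d → ℤ) :=
  (box R).filter (fun Q => Q ∈ Λ)

/-- The rational vector of an integer vector. -/
def rat {d : ℕ} (Q : Fin d → ℤ) : Fin d → ℚ := fun l => (Q l : ℚ)

/-- The rational span of the points of `Λ` in the box. -/
noncomputable def sp {d : ℕ} (Λ : AddSubgroup (Fin d → ℤ)) (R : Fin d → ℕ) : Submodule ℚ (Fin d → ℚ) :=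
  Submodule.span ℚ (rat '' (pts Λ R : Set (Fin d → ℤ)))

/-- The dimension of the span. -/
noncomputable def rk {d : ℕ} (Λ : AddSubgroup (Fin d → ℤ)) (R : Fin d → ℕ) : ℕ :=
  Module.finrank ℚ (sp Λ R)

/-- `∏_j (z - o_j)` -/
def Mo {m : ℕ} (o : Fin m → ℕ) (z : ℕ) : ℤ := ∏ j, ((z : ℤ) - (o j : ℤ))

/-- The elements `Q` of `Λ` with `∏_j (z - o_j) ∣ Q(z)`. -/
def sub {d m : ℕ} (Λ : AddSubgroup (Fin d → ℤ)) (o : Fin m → ℕ) (z : ℕ) :
    AddSubgroup (Fin d → ℤ) where
  carrier := {Q | Q ∈ Λ ∧ Mo o z ∣ ev Q z}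
  zero_mem' := ⟨Λ.zero_mem, by simp [ev]⟩
  add_mem' := by
    rintro a b ⟨ha, ha'⟩ ⟨hb, hb'⟩
    refine ⟨Λ.add_mem ha hb, ?_⟩
    have : ev (a + b) z = ev a z + ev b z := by
      simp [ev, add_mul, Finset.sum_add_distrib]
    rw [this]
    exact dvd_add ha' hb'
  neg_mem' := by
    rintro a ⟨ha, ha'⟩
    refine ⟨Λ.neg_mem ha, ?_⟩
    have : ev (-a) z = - ev a z := by
      simp [ev, Finset.sum_neg_distrib]
    rw [this]
    exact (dvd_neg).2 ha'

/-- The weight of a subgroup. -/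
noncomputable def Wt {d : ℕ} (q X : ℕ) (Λ : AddSubgroup (Fin d → ℤ)) (R : Fin d → ℕ) : ℝ :=
  ((pts Λ R).card : ℝ) ^ (1 / (q : ℝ)) *
    (X : ℝ) ^ ((1 - 1 / (q : ℝ)) * ((rk Λ R : ℝ) - 1))

/-- A list of variables, the latest first; the variables of the other kind are at the positions `0, 2, 4, …`. -/
def opp (p : List ℕ) : Fin ((p.length + 1) / 2) → ℕ := fun j => p.getD (2 * (j : ℕ)) 0

/-- The subgroup belonging to a list of variables. -/
def lat (d : ℕ) : List ℕ → AddSubgroup (Fin d → ℤ)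
  | [] => ⊤
  | z :: p => sub (lat d p) (opp p) z

/-- Some point of the box in the subgroup of the list vanishes at no variable of the list. -/
def Live (d : ℕ) (R : Fin d → ℕ) (p : List ℕ) : Prop :=
  ∃ P ∈ pts (lat d p) R, ∀ z ∈ p, ev P (z : ℤ) ≠ 0

open scoped Classical in
/-- The lists of length `t` with entries in `[1,X]` all of whose tails have the property. -/
noncomputable def seqs (X : ℕ) (L : List ℕ → Prop) : ℕ → Finset (List ℕ)
  | 0 => {[]}
  | t + 1 => (((seqs X L t) ×ˢ Finset.Icc 1 X).image (fun q => q.2 :: q.1)).filter L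

end Pool.Agent.N541.LV
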