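import Pool.Agent.N541.LV.Defs
import Pool.Agent.W89.VP.Defs

/-! # Statement of the application -/

set_option autoImplicit false

namespace Pool.Agent.N541.LV

open Finset

/-- LV/POL: equal power sums give a polynomial of degree `< d` with small coefficients. -/
def POLStm : Prop := ∀ (k d N : ℕ) (x y : Fin (k + d) → ℕ), 1 ≤ N →
  (∀ i, 1 ≤ x i ∧ x i ≤ N) → (∀ i, 1 ≤ y i ∧ y i ≤ N) →
  (∀ j : Fin k, ∑ i, x i ^ (j.val + 1) = ∑ i, y i ^ (j.val + 1)) →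
  ∃ P ∈ box (fun l : Fin d => 2 ^ (k + d + 1) * N ^ (k + d - (l : ℕ))),
    ∀ t : ℤ, ev P t = ∏ i, (t - (x i : ℤ)) - ∏ i, (t - (y i : ℤ))

/-- LV/SEQ: solutions give sequences. -/
def SEQStm : Prop := ∀ (d s N : ℕ) (R : Fin d → ℕ) (A : Finset ((Fin s → ℕ) × (Fin s → ℕ))),
  (∀ p ∈ A, (∀ i, 1 ≤ p.1 i ∧ p.1 i ≤ N) ∧ (∀ i, 1 ≤ p.2 i ∧ p.2 i ≤ N) ∧
    (∀ i j, p.1 i ≠ p.2 j) ∧
    ∃ P ∈ box R, ∀ t : ℤ, ev P t = ∏ i, (t - (p.1 i : ℤ)) - ∏ i, (t - (p.2 i : ℤ))) →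
  A.card ≤ (seqs N (Live d R) (2 * s)).card

open Pool.Agent.W89.VP in
/-- LV/APP: every solution without common entries gives a sequence. -/
def APPStm : Prop := ∀ (k d N : ℕ), 1 ≤ d → 1 ≤ N →
  (VD (k + d) k N).card ≤
    (seqs N (Live d (fun l : Fin d => 2 ^ (k + d + 1) * N ^ (k + d - (l : ℕ)))) (2 * (k + d))).card

end Pool.Agent.N541.LV
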