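import Pool.Agent.N541.LV.Stm
import Pool.Agent.N541.LV.StmB
import Pool.Agent.TH900.VPS.Final

/-! # Assembly: from the core to the theorem -/

set_option autoImplicit false

namespace Pool.Agent.N541.LV

open Finset
open Pool.Agent.W89.VP

theorem app (hP : POLStm) (hS : SEQStm) (k d N : ℕ) (hN : 1 ≤ N) :
    (VD (k + d) k N).card ≤
      (seqs N (Live d (fun l : Fin d => 2 ^ (k + d + 1) * N ^ (k + d - (l : ℕ)))) (2 * (k + d))).card := by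
  apply hS d (k + d) N _ (VD (k + d) k N)
  intro p hp
  rw [VD, Finset.mem_filter, VS, Finset.mem_filter, Finset.mem_product, Fintype.mem_piFinset,
    Fintype.mem_piFinset] at hp
  obtain ⟨⟨⟨h1, h2⟩, h3⟩, h4⟩ := hp
  have h1' : ∀ i, 1 ≤ p.1 i ∧ p.1 i ≤ N := fun i => Finset.mem_Icc.1 (h1 i)
  have h2' : ∀ i, 1 ≤ p.2 i ∧ p.2 i ≤ N := fun i => Finset.mem_Icc.1 (h2 i)
  exact ⟨h1', h2', h4, hP k d N p.1 p.2 hN h1' h2' h3⟩

/-- disjoint solutions, any `q` -/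
theorem vd_q (hC : COREStm) (hP : POLStm) (hS : SEQStm) (k d q : ℕ) (hd : 1 ≤ d) (hq : 1 ≤ q)
    (ε : ℝ) (hε : 0 < ε) :
    ∃ C : ℝ, 0 < C ∧ ∀ N : ℕ, 1 ≤ N → ((VD (k + d) k N).card : ℝ) ≤
      C * (N : ℝ) ^ ((q : ℝ) + ((d : ℝ) * ((k : ℝ) + d) - (d - 1) * (d + 2) / 2) / q + (d - 1) + ε) := by
  obtain ⟨C, hC0, h⟩ := hC d q (k + d) (2 ^ (k + d + 1)) hd (by omega) hq ε hε
  refine ⟨C, hC0, fun N hN => ?_⟩
  have h1 := h N hN (fun l : Fin d => 2 ^ (k + d + 1) * N ^ (k + d - (l : ℕ)))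
    (fun l => ⟨Nat.one_le_iff_ne_zero.2 (by positivity), le_rfl⟩)
  have h2 := app hP hS k d N hN
  have h3 : ((VD (k + d) k N).card : ℝ) ≤ ((seqs N (Live d (fun l : Fin d =>
      2 ^ (k + d + 1) * N ^ (k + d - (l : ℕ)))) (2 * (k + d))).card : ℝ) := by exact_mod_cast h2
  refine h3.trans (h1.trans (le_of_eq ?_))
  push_cast
  ring_nf

/-- twice the logarithmic volume, `2 (ds - (d-1)(d+2)/2)` with `s = k + d` -/
noncomputable def nu (k d : ℝ) : ℝ := d * (k + d) - (d - 1) * (d + 2) / 2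

lemma nu_ge {k d : ℝ} (hk : 0 ≤ k) (hd : 1 ≤ d) : 1 ≤ nu k d := by
  unfold nu
  nlinarith [mul_nonneg hk (by linarith : (0 : ℝ) ≤ d), mul_nonneg (sub_nonneg.2 hd) (sub_nonneg.2 hd)]

/-- the best integer `q` -/
lemma exists_q (B : ℝ) (hB : 0 < B) : ∃ q : ℕ, 1 ≤ q ∧ (q : ℝ) + B / q ≤ Real.sqrt (4 * B + 1) := by
  have hex : ∃ n : ℕ, B ≤ (n : ℝ) * (n + 1) := by
    obtain ⟨n, hn⟩ := exists_nat_ge B
    exact ⟨n, hn.trans (by nlinarith [(Nat.cast_nonneg n : (0 : ℝ) ≤ n)])⟩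
  classical
  set n : ℕ := Nat.find hex with hn
  have hn1 : B ≤ (n : ℝ) * (n + 1) := Nat.find_spec hex
  have hn0 : 0 < n := by
    rcases Nat.eq_zero_or_pos n with h0 | h0
    · rw [h0] at hn1
      simp at hn1
      linarith
    · exact h0
  have hn2 : (n : ℝ) * (n - 1) ≤ B := by
    have h1 := Nat.find_min hex (m := n - 1) (by omega)
    push Not at h1
    rw [Nat.cast_sub (by omega), Nat.cast_one] at h1
    linarith
  have hnr : (0 : ℝ) < n := by exact_mod_cast hn0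
  refine ⟨n, hn0, ?_⟩
  apply Real.le_sqrt_of_sq_le
  have h6 : ((n : ℝ) - B / n) ^ 2 ≤ 1 := by
    rw [sq_le_one_iff_abs_le_one, abs_le]
    constructor
    · have : B / n ≤ n + 1 := by
        rw [div_le_iff₀ hnr]; linarith
      linarith
    · have : (n : ℝ) - 1 ≤ B / n := by
        rw [le_div_iff₀ hnr]; linarith
      linarith
  have h7 : (n : ℝ) * (B / n) = B := by field_simp
  nlinarith

/-- disjoint solutions, square root -/
theorem vd_sqrt (hC : COREStm) (hP : POLStm) (hS : SEQStm) (k d : ℕ) (hd : 1 ≤ d)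
    (ε : ℝ) (hε : 0 < ε) :
    ∃ C : ℝ, 0 < C ∧ ∀ N : ℕ, 1 ≤ N → ((VD (k + d) k N).card : ℝ) ≤
      C * (N : ℝ) ^ (Real.sqrt (4 * nu k d + 1) + (d - 1) + ε) := by
  have hd' : (1 : ℝ) ≤ d := by exact_mod_cast hd
  obtain ⟨q, hq, hq2⟩ := exists_q (nu k d) (lt_of_lt_of_le one_pos (nu_ge (Nat.cast_nonneg k) hd'))
  obtain ⟨C, hC0, h⟩ := vd_q hC hP hS k d q hd hq ε hε
  refine ⟨C, hC0, fun N hN => (h N hN).trans ?_⟩
  apply mul_le_mul_of_nonneg_left _ hC0.le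
  apply Real.rpow_le_rpow_of_exponent_le (by exact_mod_cast hN)
  have : ((d : ℝ) * ((k : ℝ) + d) - (d - 1) * (d + 2) / 2) = nu k d := rfl
  rw [this]
  linarith

/-- monotonicity in the number of variables -/
lemma nu_mono {k d e : ℝ} (hk : 0 ≤ k) (hd : 1 ≤ d) (hde : d ≤ e) : nu k d ≤ nu k e := by
  unfold nu
  nlinarith [mul_nonneg hk (sub_nonneg.2 hde), mul_nonneg (sub_nonneg.2 hde) (sub_nonneg.2 hd),
    mul_nonneg (sub_nonneg.2 hde) (sub_nonneg.2 (hd.trans hde))]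

/-- non-diagonal solutions -/
theorem nondiag (hC : COREStm) (hP : POLStm) (hS : SEQStm) (s k : ℕ) (hks : k < s)
    (ε : ℝ) (hε : 0 < ε) :
    ∃ C : ℝ, 0 ≤ C ∧ ∀ N : ℕ, 1 ≤ N → ((VN s k N).card : ℝ) ≤ C * (N : ℝ) ^
      (Real.sqrt (4 * nu k ((s : ℝ) - k) + 1) + ((s : ℝ) - k - 1) + ε) := by
  apply Pool.Agent.TH900.VPS.vn_bound (Pool.Agent.W156.PVRED.main Pool.Agent.W346.PV.Newt.main)
  intro d hd hds
  obtain ⟨C, hC0, h⟩ := vd_sqrt hC hP hS k d hd ε hε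
  refine ⟨C, hC0, fun N hN => (h N hN).trans ?_⟩
  apply mul_le_mul_of_nonneg_left _ hC0.le
  apply Real.rpow_le_rpow_of_exponent_le (by exact_mod_cast hN)
  have hds' : (k : ℝ) + d ≤ s := by exact_mod_cast hds
  have hd' : (1 : ℝ) ≤ d := by exact_mod_cast hd
  have h4 : Real.sqrt (4 * nu k d + 1) ≤ Real.sqrt (4 * nu k ((s : ℝ) - k) + 1) := by
    apply Real.sqrt_le_sqrt
    have := nu_mono (Nat.cast_nonneg k) hd' (show (d : ℝ) ≤ (s : ℝ) - k by linarith)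
    linarith
  linarith

/-- `√(4ν+1) < k + 1` under the numerical condition -/
lemma sqrt_lt_up {k d : ℕ} (hd : 1 ≤ d) (h : 2 * d ^ 2 + 4 * d * k + 4 < k ^ 2 + 2 * k + 2 * d) :
    Real.sqrt (4 * nu k d + 1) < (k : ℝ) + 1 := by
  rw [Real.sqrt_lt' (by positivity)]
  have h' : 2 * (d : ℝ) ^ 2 + 4 * d * k + 4 < (k : ℝ) ^ 2 + 2 * k + 2 * d := by exact_mod_cast h
  unfold nu
  nlinarith

lemma sqrt_lt_as {k d : ℕ} (hk : 1 ≤ k) (h : 2 * d ^ 2 + 4 * d * k + 5 < k ^ 2 + 2 * d) :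
    Real.sqrt (4 * nu k d + 1) < (k : ℝ) := by
  rw [Real.sqrt_lt' (by exact_mod_cast hk)]
  have h' : 2 * (d : ℝ) ^ 2 + 4 * d * k + 5 < (k : ℝ) ^ 2 + 2 * d := by exact_mod_cast h
  unfold nu
  nlinarith

theorem upper (hC : COREStm) (hP : POLStm) (hS : SEQStm) (k d : ℕ) (hd : 1 ≤ d)
    (h : 2 * d ^ 2 + 4 * d * k + 4 < k ^ 2 + 2 * k + 2 * d) :
    ∃ C : ℝ, ∀ N : ℕ, 1 ≤ N → ((VS (k + d) k N).card : ℝ) ≤ C * (N : ℝ) ^ (k + d) := by
  classical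
  have hlt := sqrt_lt_up hd h
  obtain ⟨C3, hC3, h6⟩ := nondiag hC hP hS (k + d) k (by omega)
    ((k : ℝ) + 1 - Real.sqrt (4 * nu k d + 1)) (by linarith)
  obtain ⟨C4, hC4, h4⟩ := Pool.Agent.W346.PV.Diag.main (k + d) (by omega)
  refine ⟨C3 + ((k + d).factorial + C4), fun N hN => ?_⟩
  have hN1 : (1 : ℝ) ≤ N := by exact_mod_cast hN
  have h5 := h4 N hN
  have h6' := h6 N hN
  have he : Real.sqrt (4 * nu k (((k + d : ℕ) : ℝ) - k) + 1) + (((k + d : ℕ) : ℝ) - k - 1) +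
      ((k : ℝ) + 1 - Real.sqrt (4 * nu k d + 1)) = ((k + d : ℕ) : ℝ) := by
    have : ((k + d : ℕ) : ℝ) - k = d := by push_cast; ring
    rw [this]
    push_cast
    ring
  rw [he, Real.rpow_natCast] at h6'
  rw [Pool.Agent.TH900.VPS.split_VS (k + d) k N]
  push_cast
  have h7 : (N : ℝ) ^ (k + d - 1) ≤ (N : ℝ) ^ (k + d) := pow_le_pow_right₀ hN1 (by omega)
  rw [abs_le] at h5
  nlinarith [h5.1, h5.2]

theorem asym (hC : COREStm) (hP : POLStm) (hS : SEQStm) (k d : ℕ) (hd : 1 ≤ d)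
    (h : 2 * d ^ 2 + 4 * d * k + 5 < k ^ 2 + 2 * d) :
    ∃ C : ℝ, ∀ N : ℕ, 1 ≤ N →
      |((VS (k + d) k N).card : ℝ) - ((k + d).factorial : ℝ) * (N : ℝ) ^ (k + d)| ≤
        C * (N : ℝ) ^ (k + d - 1) := by
  classical
  have hk : 1 ≤ k := by
    rcases Nat.eq_zero_or_pos k with h0 | h0
    · subst h0
      exfalso
      nlinarith
    · exact h0
  have hlt := sqrt_lt_as hk h
  obtain ⟨C3, hC3, h6⟩ := nondiag hC hP hS (k + d) k (by omega)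
    ((k : ℝ) - Real.sqrt (4 * nu k d + 1)) (by linarith)
  obtain ⟨C4, hC4, h4⟩ := Pool.Agent.W346.PV.Diag.main (k + d) (by omega)
  refine ⟨C3 + C4, fun N hN => ?_⟩
  have hN0 : (0 : ℝ) < N := by positivity
  have h5 := h4 N hN
  have h6' := h6 N hN
  have he : Real.sqrt (4 * nu k (((k + d : ℕ) : ℝ) - k) + 1) + (((k + d : ℕ) : ℝ) - k - 1) +
      ((k : ℝ) - Real.sqrt (4 * nu k d + 1)) = ((k + d - 1 : ℕ) : ℝ) := by
    have : ((k + d : ℕ) : ℝ) - k = d := by push_cast; ring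
    rw [this, Nat.cast_sub (by omega)]
    push_cast
    ring
  rw [he, Real.rpow_natCast] at h6'
  rw [Pool.Agent.TH900.VPS.split_VS (k + d) k N]
  push_cast
  have h7 : (0 : ℝ) ≤ ((VN (k + d) k N).card : ℝ) := by positivity
  rw [abs_le] at h5 ⊢
  constructor
  · nlinarith [h5.1, h5.2]
  · nlinarith [h5.1, h5.2]

end Pool.Agent.N541.LV
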