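import Pool.Agent.N541.LV.Defs

/-! # Statements of the parts -/

set_option autoImplicit false

namespace Pool.Agent.N541.LV

open Finset

/-- LV/COV: dilating the box by `c` multiplies the number of lattice points by at most `(2c+1)^d`. -/
def COVStm : Prop := ∀ (d c : ℕ) (Λ : AddSubgroup (Fin d → ℤ)) (R : Fin d → ℕ), (∀ l, 1 ≤ R l) →
  (pts Λ (fun l => c * R l)).card ≤ (2 * c + 1) ^ d * (pts Λ R).card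

/-- LV/IDX: the index lemma. -/
def IDXStm : Prop := ∀ (d m : ℕ) (Λ : AddSubgroup (Fin d → ℤ)) (R : Fin d → ℕ) (o : Fin m → ℕ)
  (z g : ℕ), (∀ l, 1 ≤ R l) → Mo o z ≠ 0 → rk (sub Λ o z) R = rk Λ R → 0 < g → (g : ℤ) ∣ Mo o z →
  (∃ Q ∈ AddSubgroup.closure (pts Λ R : Set (Fin d → ℤ)), Mo o z ∣ ev Q (z : ℤ) - (g : ℤ)) →
    ((Mo o z).natAbs / g) * (pts (sub Λ o z) R).card ≤ (2 * d + 3) ^ d * (pts Λ R).card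

/-- LV/GCD -/
def GCDStm : Prop := ∀ (d : ℕ) (A : Finset (Fin d → ℤ)) (M : ℤ) (z : ℤ), M ≠ 0 →
  ∃ g : ℕ, 0 < g ∧ (g : ℤ) ∣ M ∧ (∀ Q ∈ A, (g : ℤ) ∣ ev Q z) ∧
    ∃ Q ∈ AddSubgroup.closure (A : Set (Fin d → ℤ)), M ∣ ev Q z - (g : ℤ)

/-- LV/CONG -/
def CONGStm : Prop := ∀ (d : ℕ) (Q : Fin d → ℤ) (a b : ℤ), (a - b) ∣ ev Q a - ev Q b

/-- the divisor bound (in the library: `Pool.Agent.W505.PV.VF.mainDIV`) -/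
def DIVStm : Prop := ∀ ε : ℝ, 0 < ε → ∃ C : ℝ, 0 < C ∧ ∀ n : ℕ, 1 ≤ n →
  (n.divisors.card : ℝ) ≤ C * (n : ℝ) ^ ε

/-- LV/COST: few `z` have a small index. -/
def COSTStm : Prop := ∀ (m q K C0 : ℕ), 1 ≤ m → 1 ≤ q → ∀ ε : ℝ, 0 < ε → ∃ C : ℝ, 0 < C ∧
  ∀ X : ℕ, 1 ≤ X → ∀ (o : Fin m → ℕ) (a : Fin m → ℕ) (Z : Finset ℕ) (g : ℕ → ℕ),
    (∀ j, 1 ≤ o j ∧ o j ≤ X) → (∀ j, 1 ≤ a j ∧ a j ≤ C0 * X ^ K) → Z ⊆ Finset.Icc 1 X →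
    (∀ z ∈ Z, Mo o z ≠ 0 ∧ 0 < g z ∧ (g z : ℤ) ∣ Mo o z ∧
      ∀ j, ∀ h : ℕ, h ∣ g z → (h : ℤ) ∣ (z : ℤ) - (o j : ℤ) → h ∣ a j) →
    ∑ z ∈ Z, ((((Mo o z).natAbs / g z : ℕ) : ℝ)) ^ (-(1 / (q : ℝ))) ≤
      C * (X : ℝ) ^ (max 0 (1 - (m : ℝ) / q) + ε)

/-- LV/DROP: the first moment of the number of points of the sublattices. -/
def DROPStm : Prop := ∀ (d m s C0 : ℕ), 1 ≤ d → 1 ≤ m → ∀ ε : ℝ, 0 < ε → ∃ C : ℝ, 0 < C ∧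
  ∀ X : ℕ, 1 ≤ X → ∀ (R : Fin d → ℕ), (∀ l, 1 ≤ R l ∧ R l ≤ C0 * X ^ s) →
  ∀ (Λ : AddSubgroup (Fin d → ℤ)) (o : Fin m → ℕ), (∀ j, 1 ≤ o j ∧ o j ≤ X) →
  ∀ Z : Finset ℕ, Z ⊆ Finset.Icc 1 X →
    (∀ z ∈ Z, ∃ P ∈ pts (sub Λ o z) R, ev P (z : ℤ) ≠ 0 ∧ ∀ j, ev P (o j : ℤ) ≠ 0) →
    ∑ z ∈ Z, ((pts (sub Λ o z) R).card : ℝ) ≤ C * (X : ℝ) ^ ε * ((pts Λ R).card : ℝ)

/-- LV/STEP: one more variable. -/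
def STEPStm : Prop := ∀ (d m q s C0 : ℕ), 1 ≤ d → 1 ≤ m → 1 ≤ q → ∀ ε : ℝ, 0 < ε → ∃ C : ℝ, 0 < C ∧
  ∀ X : ℕ, 1 ≤ X → ∀ (R : Fin d → ℕ), (∀ l, 1 ≤ R l ∧ R l ≤ C0 * X ^ s) →
  ∀ (Λ : AddSubgroup (Fin d → ℤ)) (o : Fin m → ℕ), (∀ j, 1 ≤ o j ∧ o j ≤ X) →
  ∀ Z : Finset ℕ, Z ⊆ Finset.Icc 1 X →
    (∀ z ∈ Z, ∃ P ∈ pts (sub Λ o z) R, ev P (z : ℤ) ≠ 0 ∧ ∀ j, ev P (o j : ℤ) ≠ 0) →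
    ∑ z ∈ Z, Wt q X (sub Λ o z) R ≤
      C * (X : ℝ) ^ (max 0 (1 - (m : ℝ) / q) + ε) * Wt q X Λ R

/-- LV/TREE: summation over a tree. -/
def TREEStm : Prop := ∀ (X T : ℕ) (L : List ℕ → Prop) (W : List ℕ → ℝ) (K : ℕ → ℝ),
  (∀ p, L p → 1 ≤ W p) → 1 ≤ W [] → (∀ t, 0 ≤ K t) →
  (∀ t < T, ∀ p ∈ seqs X L t, ∀ Z : Finset ℕ, Z ⊆ Finset.Icc 1 X → (∀ z ∈ Z, L (z :: p)) →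
    ∑ z ∈ Z, W (z :: p) ≤ K t * W p) →
  ((seqs X L T).card : ℝ) ≤ (∏ t ∈ Finset.range T, K t) * W []

/-- LV/SUM -/
def SUMStm : Prop := ∀ (q T : ℕ), 1 ≤ q →
  1 + ∑ t ∈ Finset.range T, max 0 (1 - ((((t + 2) / 2 : ℕ) : ℝ)) / (q : ℝ)) ≤ (q : ℝ)

/-- LV/CORE -/
def COREStm : Prop := ∀ (d q s C0 : ℕ), 1 ≤ d → d ≤ s → 1 ≤ q → ∀ ε : ℝ, 0 < ε → ∃ C : ℝ, 0 < C ∧
  ∀ X : ℕ, 1 ≤ X → ∀ (R : Fin d → ℕ), (∀ l, 1 ≤ R l ∧ R l ≤ C0 * X ^ (s - (l : ℕ))) →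
    ((seqs X (Live d R) (2 * s)).card : ℝ) ≤
      C * (X : ℝ) ^ ((q : ℝ) + ((d : ℝ) * s - (d - 1) * (d + 2) / 2) / q + (d - 1) + ε)

end Pool.Agent.N541.LV
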