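import Pool.Agent.N541.LV.Fin
import Pool.Agent.N401.LV.COV
import Pool.Agent.N916.LV.Idx
import Pool.Agent.N374.LV.GCD
import Pool.Agent.N622.LV.COST
import Pool.Agent.N432.LV.Drop
import Pool.Agent.N152.LV_STEP
import Pool.Agent.N255.LV.Tree
import Pool.Agent.N143.LV.CORE
import Pool.Agent.N374.LV.POL
import Pool.Agent.N712.LV.Seq

/-! # Assembly: all parts

Parts by helpers 143, 152, 255, 374, 401, 432, 622, 712, 916; assembly by helper541. -/

set_option autoImplicit false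

namespace Pool.Agent.N541.LV

open Finset
open Pool.Agent.W89.VP

theorem divM : Pool.Agent.N541.LV.DIVStm := Pool.Agent.W505.PV.VF.mainDIV

theorem core : COREStm :=
  Pool.Agent.N143.LV.main
    (Pool.Agent.N152.LV.main (Pool.Agent.N916.LV.Idx.main Pool.Agent.N401.LV.main)
      Pool.Agent.N374.LVGCD.gcd_main Pool.Agent.N374.LVGCD.cong_main
      (Pool.Agent.N622.LV.COST.main divM)
      (Pool.Agent.N432.LV.Drop.main Pool.Agent.N401.LV.main Pool.Agent.N374.LVGCD.cong_main divM))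
    Pool.Agent.N255.LV.tree_main Pool.Agent.N255.LV.sum_main

theorem pol : POLStm := Pool.Agent.N374.LVPOL.main Pool.Agent.W346.PV.Newt.main

theorem seqm : SEQStm := Pool.Agent.N712.LV.main

/-- non-diagonal solutions, with a free integer parameter `q` -/
theorem nondiag_q (s k q : ℕ) (hq : 1 ≤ q) (ε : ℝ) (hε : 0 < ε) :
    ∃ C : ℝ, 0 ≤ C ∧ ∀ N : ℕ, 1 ≤ N → ((VN s k N).card : ℝ) ≤ C * (N : ℝ) ^
      ((q : ℝ) + nu k ((s : ℝ) - k) / q + ((s : ℝ) - k - 1) + ε) := by
  apply Pool.Agent.TH900.VPS.vn_bound (Pool.Agent.W156.PVRED.main Pool.Agent.W346.PV.Newt.main)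
  intro d hd hds
  obtain ⟨C, hC0, h⟩ := vd_q core pol seqm k d q hd hq ε hε
  refine ⟨C, hC0, fun N hN => (h N hN).trans ?_⟩
  apply mul_le_mul_of_nonneg_left _ hC0.le
  apply Real.rpow_le_rpow_of_exponent_le (by exact_mod_cast hN)
  have hds' : (k : ℝ) + d ≤ s := by exact_mod_cast hds
  have hd' : (1 : ℝ) ≤ d := by exact_mod_cast hd
  have hq0 : (0 : ℝ) < q := by exact_mod_cast hq
  have h4 : nu k d / q ≤ nu k ((s : ℝ) - k) / q := by
    apply div_le_div_of_nonneg_right _ hq0.le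
    exact nu_mono (Nat.cast_nonneg k) hd' (show (d : ℝ) ≤ (s : ℝ) - k by linarith)
  have : ((d : ℝ) * ((k : ℝ) + d) - (d - 1) * (d + 2) / 2) = nu k d := rfl
  rw [this]
  linarith

end Pool.Agent.N541.LV
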